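import Mathlib
import Pool.Agent.Helper40.SqFreePerm

/-!
Standardisation of the extremal square-free words over the rationals to permutations of `1, .., n`.
-/

set_option autoImplicit false

namespace Pool.Agent.Helper38.SqFree

open Finset

/-- the number of the values `F 0, .., F (n-1)` below `x` -/
def below (n : ℕ) (F : ℕ → ℚ) (x : ℚ) : ℕ := ((range n).filter (fun j => F j < x)).card

theorem below_le (n : ℕ) (F : ℕ → ℚ) (x : ℚ) : below n F x ≤ n := by
  unfold below
  exact (card_filter_le _ _).trans (by simp)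

theorem below_mono (n : ℕ) (F : ℕ → ℚ) {x y : ℚ} (h : x ≤ y) : below n F x ≤ below n F y := by
  unfold below
  apply card_le_card
  intro j hj
  rw [mem_filter] at hj ⊢
  exact ⟨hj.1, lt_of_lt_of_le hj.2 h⟩

theorem below_lt (n : ℕ) (F : ℕ → ℚ) {i : ℕ} (hi : i < n) {y : ℚ} (h : F i < y) :
    below n F (F i) < below n F y := by
  unfold below
  apply card_lt_card
  rw [ssubset_iff_of_subset]
  · exact ⟨i, by rw [mem_filter]; exact ⟨mem_range.2 hi, h⟩, by rw [mem_filter]; simp⟩
  · intro j hj
    rw [mem_filter] at hj ⊢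
    exact ⟨hj.1, hj.2.trans h⟩

theorem below_lt_iff (n : ℕ) (F : ℕ → ℚ) {i : ℕ} (hi : i < n) (y : ℚ) :
    below n F (F i) < below n F y ↔ F i < y := by
  constructor
  · intro h
    by_contra hcon
    push Not at hcon
    have := below_mono n F hcon
    omega
  · exact below_lt n F hi

theorem below_self_lt (n : ℕ) (F : ℕ → ℚ) {i : ℕ} (hi : i < n) : below n F (F i) < n := by
  have := below_lt n F hi (y := F i + 1) (by linarith)
  have := below_le n F (F i + 1)
  omega

/-- the standardisation, with values from `1` on -/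
def g (n : ℕ) (F : ℕ → ℚ) (i : ℕ) : ℕ := below n F (F i) + 1

theorem g_lt_iff (n : ℕ) (F : ℕ → ℚ) {i : ℕ} (hi : i < n) (j : ℕ) : g n F i < g n F j ↔ F i < F j := by
  unfold g
  rw [Nat.add_lt_add_iff_right]
  exact below_lt_iff n F hi (F j)

/-- the word of the standardisation -/
def wd (n : ℕ) (F : ℕ → ℚ) : List ℕ := (List.range n).map (g n F)

theorem wd_length (n : ℕ) (F : ℕ → ℚ) : (wd n F).length = n := by simp [wd]

theorem wd_getD (n : ℕ) (F : ℕ → ℚ) (k : ℕ) (hk : k < n) : (wd n F).getD k 0 = g n F k := by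
  simp [wd, List.getD_eq_getElem?_getD, hk]

theorem wd_nodup (n : ℕ) (F : ℕ → ℚ) (hF : ∀ i < n, ∀ j < n, F i = F j → i = j) :
    (wd n F).Nodup := by
  unfold wd
  apply List.Nodup.map_on _ List.nodup_range
  intro x hx y hy h
  rw [List.mem_range] at hx hy
  apply hF x hx y hy
  rcases lt_trichotomy (F x) (F y) with h1 | h1 | h1
  · have := (g_lt_iff n F hx y).2 h1
    omega
  · exact h1
  · have := (g_lt_iff n F hy x).2 h1
    omega

theorem wd_perm (n : ℕ) (F : ℕ → ℚ) (hF : ∀ i < n, ∀ j < n, F i = F j → i = j) :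
    (wd n F).Perm (List.range' 1 n) := by
  have hsub : ∀ a, a ∈ wd n F → a ∈ List.range' 1 n := by
    intro a ha
    unfold wd at ha
    rw [List.mem_map] at ha
    obtain ⟨i, hi, rfl⟩ := ha
    rw [List.mem_range] at hi
    rw [List.mem_range'_1]
    have := below_self_lt n F hi
    unfold g
    omega
  have h1 := List.subperm_of_subset (wd_nodup n F hF) hsub
  exact h1.perm_of_length_le (by rw [wd_length]; simp)

/-- squares in index form -/
theorem square_index (w : List ℕ) :
    (∃ u x y v : List ℕ, w = u ++ x ++ y ++ v ∧ 2 ≤ x.length ∧ x.length = y.length ∧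
      ∀ i < x.length, ∀ j < x.length, (x.getD i 0 < x.getD j 0 ↔ y.getD i 0 < y.getD j 0)) ↔
    ∃ i l : ℕ, 2 ≤ l ∧ i + 2 * l ≤ w.length ∧ ∀ a < l, ∀ b < l,
      (w.getD (i + a) 0 < w.getD (i + b) 0 ↔ w.getD (i + l + a) 0 < w.getD (i + l + b) 0) := by
  constructor
  · rintro ⟨u, x, y, v, rfl, h2, hl, h⟩
    refine ⟨u.length, x.length, h2, by simp; omega, ?_⟩
    have hx : ∀ a < x.length, (u ++ x ++ y ++ v).getD (u.length + a) 0 = x.getD a 0 := by
      intro a ha
      simp only [List.getD_eq_getElem?_getD]
      rw [List.append_assoc, List.append_assoc, List.getElem?_append_right (by omega),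
        List.getElem?_append_left (by omega)]
      congr 2
      omega
    have hy : ∀ a < x.length, (u ++ x ++ y ++ v).getD (u.length + x.length + a) 0 = y.getD a 0 := by
      intro a ha
      simp only [List.getD_eq_getElem?_getD]
      rw [List.append_assoc, List.getElem?_append_right (by simp),
        List.getElem?_append_left (by simp; omega)]
      congr 2
      simp
    intro a ha b hb
    rw [hx a ha, hx b hb, hy a ha, hy b hb]
    exact h a ha b hb
  · rintro ⟨i, l, h2, hil, h⟩
    refine ⟨w.take i, (w.drop i).take l, (w.drop (i + l)).take l, w.drop (i + 2 * l), ?_, ?_, ?_, ?_⟩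
    · have e1 : w.drop (i + l) = (w.drop i).drop l := by rw [List.drop_drop]
      have e2 : w.drop (i + 2 * l) = (w.drop (i + l)).drop l := by
        rw [List.drop_drop]; congr 1; omega
      rw [List.append_assoc, e2, List.take_append_drop, e1, List.append_assoc,
        List.take_append_drop, List.take_append_drop]
    · simp; omega
    · simp; omega
    · have hlen : ((w.drop i).take l).length = l := by simp; omega
      rw [hlen]
      have hx : ∀ a < l, ((w.drop i).take l).getD a 0 = w.getD (i + a) 0 := by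
        intro a ha
        simp only [List.getD_eq_getElem?_getD]
        rw [List.getElem?_take_of_lt ha, List.getElem?_drop]
      have hy : ∀ a < l, ((w.drop (i + l)).take l).getD a 0 = w.getD (i + l + a) 0 := by
        intro a ha
        simp only [List.getD_eq_getElem?_getD]
        rw [List.getElem?_take_of_lt ha, List.getElem?_drop]
      intro a ha b hb
      rw [hx a ha, hx b hb, hy a ha, hy b hb]
      exact h a ha b hb

/-- insertion -/
def insw (w : List ℕ) (p v : ℕ) : List ℕ :=
  (w.map fun a => if v ≤ a then a + 1 else a).take p ++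
    v :: (w.map fun a => if v ≤ a then a + 1 else a).drop p

theorem insw_getD (n : ℕ) (F : ℕ → ℚ) (p v : ℕ) (hp : p ≤ n) (k : ℕ) (hk : k ≤ n) :
    (insw (wd n F) p v).getD k 0 =
      if k < p then (if v ≤ g n F k then g n F k + 1 else g n F k)
      else if k = p then v else (if v ≤ g n F (k - 1) then g n F (k - 1) + 1 else g n F (k - 1)) := by
  have hm : ∀ j < n, ((wd n F).map fun a => if v ≤ a then a + 1 else a)[j]? =
      some (if v ≤ g n F j then g n F j + 1 else g n F j) := by
    intro j hj
    simp [wd, hj]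
  unfold insw
  rw [List.getD_eq_getElem?_getD, List.getElem?_append]
  have hl : (((wd n F).map fun a => if v ≤ a then a + 1 else a).take p).length = p := by
    simp [wd_length, hp]
  rw [hl]
  by_cases h1 : k < p
  · rw [if_pos h1, if_pos h1, List.getElem?_take_of_lt h1, hm k (by omega)]
    rfl
  · rw [if_neg h1, if_neg h1]
    by_cases h2 : k = p
    · subst h2; simp
    · rw [if_neg h2]
      obtain ⟨q, rfl⟩ : ∃ q, k = p + (q + 1) := ⟨k - p - 1, by omega⟩
      have e : p + (q + 1) - p = q + 1 := by omega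
      rw [e, List.getElem?_cons_succ, List.getElem?_drop]
      have e2 : p + (q + 1) - 1 = p + q := by omega
      rw [e2, hm (p + q) (by omega)]
      rfl

/-- a rational in the `v`-th gap -/
theorem exists_gap (n : ℕ) (F : ℕ → ℚ) (v : ℕ) : ∃ x : ℚ, ∀ i < n,
    (g n F i < v → F i < x) ∧ (v ≤ g n F i → x < F i) := by
  obtain ⟨x, h1, h2⟩ := Order.exists_between_finsets
    (lo := ((range n).filter fun i => g n F i < v).image F)
    (hi := ((range n).filter fun i => v ≤ g n F i).image F) (by
      intro a ha b hb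
      rw [mem_image] at ha hb
      obtain ⟨i, hi, rfl⟩ := ha
      obtain ⟨j, hj, rfl⟩ := hb
      rw [mem_filter] at hi hj
      exact (g_lt_iff n F (mem_range.1 hi.1) j).1 (lt_of_lt_of_le hi.2 hj.2))
  refine ⟨x, fun i hi => ⟨fun h => ?_, fun h => ?_⟩⟩
  · exact h1 _ (mem_image.2 ⟨i, mem_filter.2 ⟨mem_range.2 hi, h⟩, rfl⟩)
  · exact h2 _ (mem_image.2 ⟨i, mem_filter.2 ⟨mem_range.2 hi, h⟩, rfl⟩)

open Pool.Agent.Helper40.SqFree in
/-- the inserted words are order isomorphic -/
theorem ins_lt_iff (n : ℕ) (F : ℕ → ℚ) (p v : ℕ) (hp : p ≤ n) (x : ℚ)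
    (hx : ∀ i < n, (g n F i < v → F i < x) ∧ (v ≤ g n F i → x < F i))
    (k l : ℕ) (hk : k ≤ n) (hl : l ≤ n) :
    (insw (wd n F) p v).getD k 0 < (insw (wd n F) p v).getD l 0 ↔ ins F p x k < ins F p x l := by
  rw [insw_getD n F p v hp k hk, insw_getD n F p v hp l hl]
  unfold ins
  have key : ∀ i < n, ∀ j < n, ((if v ≤ g n F i then g n F i + 1 else g n F i) <
      (if v ≤ g n F j then g n F j + 1 else g n F j) ↔ F i < F j) := by
    intro i hi j hj
    rw [← g_lt_iff n F hi j]
    split_ifs <;> omega
  have key2 : ∀ i < n, ((if v ≤ g n F i then g n F i + 1 else g n F i) < v ↔ F i < x) := by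
    intro i hi
    split_ifs with h
    · have := (hx i hi).2 h
      constructor
      · intro h'; omega
      · intro h'; exact absurd (this.trans h') (lt_irrefl _)
    · have := (hx i hi).1 (by omega)
      constructor
      · intro _; exact this
      · intro _; omega
  have key3 : ∀ i < n, (v < (if v ≤ g n F i then g n F i + 1 else g n F i) ↔ x < F i) := by
    intro i hi
    split_ifs with h
    · have := (hx i hi).2 h
      constructor
      · intro _; exact this
      · intro _; omega
    · have := (hx i hi).1 (by omega)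
      constructor
      · intro h'; omega
      · intro h'; exact absurd (this.trans h') (lt_irrefl _)
  by_cases k1 : k < p
  · rw [if_pos k1, if_pos k1]
    by_cases l1 : l < p
    · rw [if_pos l1, if_pos l1]; exact key k (by omega) l (by omega)
    · rw [if_neg l1, if_neg l1]
      by_cases l2 : l = p
      · rw [if_pos l2, if_pos l2]; exact key2 k (by omega)
      · rw [if_neg l2, if_neg l2]; exact key k (by omega) (l - 1) (by omega)
  · rw [if_neg k1, if_neg k1]
    by_cases k2 : k = p
    · rw [if_pos k2, if_pos k2]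
      by_cases l1 : l < p
      · rw [if_pos l1, if_pos l1]; exact key3 l (by omega)
      · rw [if_neg l1, if_neg l1]
        by_cases l2 : l = p
        · rw [if_pos l2, if_pos l2]; simp
        · rw [if_neg l2, if_neg l2]; exact key3 (l - 1) (by omega)
    · rw [if_neg k2, if_neg k2]
      by_cases l1 : l < p
      · rw [if_pos l1, if_pos l1]; exact key (k - 1) (by omega) l (by omega)
      · rw [if_neg l1, if_neg l1]
        by_cases l2 : l = p
        · rw [if_pos l2, if_pos l2]; exact key2 (k - 1) (by omega)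
        · rw [if_neg l2, if_neg l2]; exact key (k - 1) (by omega) (l - 1) (by omega)

open Pool.Agent.Helper40.SqFree in
theorem main (m : ℕ) (hm : 6 ≤ m) :
    (wd (2 ^ m - 11) (F m)).Perm (List.range' 1 (2 ^ m - 11)) ∧
    (¬ ∃ i l : ℕ, 2 ≤ l ∧ i + 2 * l ≤ (wd (2 ^ m - 11) (F m)).length ∧ ∀ a < l, ∀ b < l,
      ((wd (2 ^ m - 11) (F m)).getD (i + a) 0 < (wd (2 ^ m - 11) (F m)).getD (i + b) 0 ↔
        (wd (2 ^ m - 11) (F m)).getD (i + l + a) 0 < (wd (2 ^ m - 11) (F m)).getD (i + l + b) 0)) ∧
    ∀ p ≤ 2 ^ m - 11, ∀ v : ℕ, ∃ i l : ℕ, 2 ≤ l ∧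
      i + 2 * l ≤ (insw (wd (2 ^ m - 11) (F m)) p v).length ∧ ∀ a < l, ∀ b < l,
      ((insw (wd (2 ^ m - 11) (F m)) p v).getD (i + a) 0 <
          (insw (wd (2 ^ m - 11) (F m)) p v).getD (i + b) 0 ↔
        (insw (wd (2 ^ m - 11) (F m)) p v).getD (i + l + a) 0 <
          (insw (wd (2 ^ m - 11) (F m)) p v).getD (i + l + b) 0) := by
  have hp := pow_ge m hm
  have hF : ∀ i < 2 ^ m - 11, ∀ j < 2 ^ m - 11, F m i = F m j → i = j := by
    intro i hi j hj h
    by_contra hne
    exact F_ne m i j hi hj hne h
  refine ⟨wd_perm _ _ hF, ?_, ?_⟩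
  · rintro ⟨i, l, hl, hil, h⟩
    rw [wd_length] at hil
    apply W_sqfree m (i + 6) l hm hl (by omega) (by omega)
    intro a ha b hb
    have := h a ha b hb
    rw [wd_getD _ _ _ (by omega), wd_getD _ _ _ (by omega), wd_getD _ _ _ (by omega),
      wd_getD _ _ _ (by omega), g_lt_iff _ _ (by omega), g_lt_iff _ _ (by omega)] at this
    unfold F at this
    rw [show i + 6 + a = i + a + 6 by ring, show i + 6 + b = i + b + 6 by ring,
      show i + 6 + l + a = i + l + a + 6 by ring, show i + 6 + l + b = i + l + b + 6 by ring]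
    exact this
  · intro p hp' v
    obtain ⟨x, hx⟩ := exists_gap (2 ^ m - 11) (F m) v
    have hxw : x ∉ word m := by
      intro hmem
      unfold word at hmem
      rw [List.mem_map] at hmem
      obtain ⟨i, hi, hi2⟩ := hmem
      rw [List.mem_range] at hi
      rcases Nat.lt_or_ge (g (2 ^ m - 11) (F m) i) v with h | h
      · have := (hx i hi).1 h
        rw [hi2] at this
        exact lt_irrefl _ this
      · have := (hx i hi).2 h
        rw [hi2] at this
        exact lt_irrefl _ this
    obtain ⟨i, l, hl, hil, hs⟩ := ext_all m p hm hp' x hxw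
    have hlen : (insw (wd (2 ^ m - 11) (F m)) p v).length = 2 ^ m - 11 + 1 := by
      unfold insw
      simp [wd_length]
      omega
    refine ⟨i, l, hl, by rw [hlen]; exact hil, ?_⟩
    intro a ha b hb
    rw [ins_lt_iff _ _ p v hp' x hx _ _ (by omega) (by omega),
      ins_lt_iff _ _ p v hp' x hx _ _ (by omega) (by omega)]
    exact hs a ha b hb

end Pool.Agent.Helper38.SqFree
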